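import Pool.Agent.T2H60.MH.Main

set_option autoImplicit false

/-!
# SetIntersection: the conjectured tradeoff for adaptive monotone structures with free memory

A family of `m` subsets of a universe with `n` elements, `m * n ≤ N` (so of total size at most `N`),
is preprocessed. A monotone data structure (`FreeDS`) has `s` cells; every cell contains an
arbitrary nondecreasing real function of the family (unlimited preprocessing, unlimited word
length). In addition each query `(i, j)` may read, free in the space, `r` arbitrary nondecreasing
functions of the family which do not depend on the set `i`, and `r` arbitrary nondecreasing
functions of the family which do not depend on the set `j`; for instance everything that can be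
computed from one half of the family alone, if `i` and `j` are in different halves, in particular
the sets themselves. The query reads cells and free places adaptively and reports a set which is
a nondecreasing function of their contents. The data structure may be random: on every query, every
element of the universe is reported correctly (it is reported iff it is in both sets) with
probability at least `1 / 2 + δ`, and the expected number of places read, cells and free places, is
at most `C * (T + op)`, where `op` is the size of the intersection.

Then `δ ^ 3 * N ^ 2 ≤ 10 ^ 5 * C ^ 2 * T * s * (log₂ ((N + r) / δ)) ^ 3`, for all `N ≥ 2` and all
query times `T ≥ 1` with `144 * C * T * log₂ ((N + r) / δ) ≤ δ * N`: the number of cells is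
`Ω~(N ^ 2 / T)`, the full conjectured bound, in addition to all the free memory. (For `T` of order
`N` no cells are needed, as the two sets can be read in the free memory.)

Comparison with the starting results of this problem: in `AdaptiveMonotone` there is no free memory,
in `MonotoneTradeoff` (free functions of one of the two halves) the queries are not adaptive, and
`EmptinessTradeoff` (free functions which do not depend on one of the two sets) treats queries
without adaptivity which decide emptiness, with the bound `N ^ 2 / T ^ 2`.

Proof. As in `AdaptiveMonotone`: the true inputs of a query and an element `e` are: both sets are
`{e}`, all other sets are empty. The false inputs are random: all other sets are the whole universe,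
every element is with a small probability in both sets of the query and otherwise missing from a
random one of them. A place serves `e` if its content is larger on the true input of `e` than
on the false input. Every cell has an owner, the query for which the `L`-th largest of its values on
true inputs is the largest, and serves few elements for all other queries. A free place of the
query `(i, j)` has no need of an owner: if its content does not depend on the set `i`, then it is at
least as large on the true inputs of the query `(i', j)`, `i' ≠ i`, since its content does not
change if the set `i` is made empty, and does not decrease if then `e` is put into the set `i'`.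
-/

namespace Pool.Agent.Results.MP_f326ae_lc.AdaptiveMonotoneFree

open Pool.Agent.T2H60.MH

/-- For all `N`, `r` and all query times `C * (T + op)` with `144 C T log₂ ((N + r) / δ) ≤ δ N`
there are `m` and `n` with `m * n ≤ N` such that every randomised monotone data structure, with
`s` cells and `2 r` free places for each query, which solves SetIntersection with advantage `δ` on
the families of `m` subsets of a universe with `n` elements, has at least
`δ ^ 3 * N ^ 2 / (10 ^ 5 * C ^ 2 * T * (log₂ ((N + r) / δ)) ^ 3)` cells. -/
theorem result (N r : ℕ) (hN : 2 ≤ N) (δ C T : ℝ) (hδ : 0 < δ) (hδ2 : δ ≤ 1 / 2) (hC : 1 ≤ C)
    (hT : 1 ≤ T) (hNT : 144 * (C * T) * Real.logb 2 ((N + r) / δ) ≤ δ * N) :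
    ∃ m n : ℕ, m * n ≤ N ∧ ∀ (s : ℕ) (Ω : Type) [Fintype Ω] (p : Ω → ℝ) (D : Ω → FreeDS m n s r),
      Solves p D δ C T →
        δ ^ 3 * (N : ℝ) ^ 2 ≤ 10 ^ 5 * C ^ 2 * T * s * (Real.logb 2 ((N + r) / δ)) ^ 3 :=
  lower hN hδ hδ2 hC hT hNT

end Pool.Agent.Results.MP_f326ae_lc.AdaptiveMonotoneFree
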