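import Pool.Agent.T2H60.HL.Tab

set_option autoImplicit false

/-!
# Set intersection queries: adaptive structures whose words are made from the answers

The best known structures which decide, for sets of total size `N`, in time `T` whether two of them
intersect store the answers for all pairs of sets with more than `T` elements, and besides only
information about single sets. We show that the space `(N / T) ^ 2` is optimal up to powers of the
word length among all deterministic structures which store information about the answers and
about the halves, however the answers are encoded in the words and however the queries look for
them. A query may read many words which depend on all sets, at addresses which are chosen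
adaptively, and the words need not be monotone.

**Model.** A family of `2 k` sets is given in two halves `X` and `Y` of `k` sets. The memory has
words of `w` bits. The word number `σ` is an *arbitrary* function of

* the values of `r` polynomials of degree at most `m` over the field with `p` elements in the
  `k ^ 2` unknowns `x_(i,j)`, where `x_(i,j) = 1` if `X i` and `Y j` have a common element and
  `x_(i,j) = 0` otherwise; all coefficients are arbitrary,
* `w` bits which are an arbitrary function of the whole first half `X`,
* `w` bits which are an arbitrary function of the whole second half `Y`.

For `p = 2`, `m = 1` and `r = w` each bit of a word is the sum modulo `2` of an arbitrary set of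
answers, masked by arbitrary bits of the halves, or the word is an arbitrary function of `w`
such sums; for `p = 2` and `m = r = w` each bit of a word may depend in an arbitrary way on `w`
answers. Only the words with a polynomial which is not constant count for the space `S`; so
unlimited memory for data about the first half alone and about the second half alone is free.
The query for a pair `(i, j)` is an arbitrary decision tree; it reads words of all kinds, the next
address is an arbitrary function of `i`, `j` and of the contents which were read before, and it has
to decide correctly for all families whether `X i` and `Y j` meet. Its number of probes has to be at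
most `t` only for families in which no pair meets. So the bound holds in particular for the query
time `T + op` of the problem, with `t` of order `T` (a query algorithm which lists the intersection
also decides whether it is empty). The structure may depend on `N`, all sizes of sets are equal to
`n` and are known.

**Result.** (1) If `n ≥ 20000 (t (r m (p - 1) + w) + 1)` and `u ≥ 3 k n`, then every structure of
this kind for families of `2 k` sets with `n` elements in `{0, …, u - 1}` satisfies
`k ^ 2 ≤ m (p - 1) r S`.

(2) So for all `N`, `t`, `w`, `r`, `m` and `p` there are `k` and `n` with `2 k n ≤ N` such that
`N ^ 2 ≤ 6400000000 (t (r m (p - 1) + w) + 1) ^ 2 (m (p - 1) r S + 1)` for all structures for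
families of `2 k` sets with `n` elements, which have the total size `2 k n ≤ N`.

**Proof.** If `k ^ 2 > m (p - 1) r S`, then by the theorem of Chevalley and Warning there is a
nonempty set `L` of pairs such that no polynomial distinguishes the pattern `L` of intersecting pairs
from the empty pattern. Fix a pair `d ∈ L` and follow the query `d` on random families in which no
pair meets: each element `1, …, v` is put into a random set of the first half or into a random set
of the second half (or into none). The contents of the words read are guessed, so a rectangle
(a set of first halves times a set of second halves) of measure at least `2 ^ (-2 w t)` remains, on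
which the query `d` reads the same words, and answers no, as long as no polynomial in these at
most `t` words distinguishes the pattern from the empty one. A second application of the theorem of
Chevalley and Warning gives a set `L'` of at most `t r m (p - 1) + 1` pairs with `d ∈ L'` which these
polynomials do not distinguish from the empty pattern. Finally the rectangle contains a family in
which the pairs in `L'` meet and no other pair meets; this is shown in the manner of Razborov's
lower bound for the disjointness problem: the pairs of `L'` are planted one after the other, and
planting a pair at a suitable position costs only a constant factor of the measure, by the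
quantitative estimate `Pool.Agent.T2H60.HL.step`. On this family the query answers no, though the
pair `d` meets.
-/

namespace Pool.Agent.Results.MP_f326ae_lc.LowDegreeTables

open Pool.Agent.T2H60.HL

theorem result :
    (∀ (k c w p r m t n u : ℕ) [Fact p.Prime],
      20000 * (t * (r * (m * (p - 1)) + w) + 1) ≤ n → 3 * k * n ≤ u →
      ∀ D : TableDS k c w p r, D.DegreeLe m → D.Solves n u t →
        k ^ 2 ≤ m * (p - 1) * (r * D.space)) ∧
    (∀ (N t w r m p : ℕ) [Fact p.Prime], ∃ k n : ℕ, 2 * k * n ≤ N ∧
      ∀ (u : ℕ), 3 * k * n ≤ u → ∀ (c : ℕ) (D : TableDS k c w p r),
        D.DegreeLe m → D.Solves n u t →
        N ^ 2 ≤ 6400000000 * (t * (r * (m * (p - 1)) + w) + 1) ^ 2 *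
          (m * (p - 1) * (r * D.space) + 1)) := by
  refine ⟨fun k c w p r m t n u _ hn hu D hdeg hD => lowDegree k c w p r m t n u hn hu D hdeg hD,
    ?_⟩
  intro N t w r m p _
  obtain ⟨q, hq⟩ : ∃ q, q = t * (r * (m * (p - 1)) + w) + 1 := ⟨_, rfl⟩
  obtain ⟨n, hn⟩ : ∃ n, n = 20000 * q := ⟨_, rfl⟩
  obtain ⟨k, hk⟩ : ∃ k, k = N / (2 * n) := ⟨_, rfl⟩
  have hn0 : 0 < 2 * n := by omega
  refine ⟨k, n, ?_, ?_⟩
  · calc 2 * k * n = 2 * n * (N / (2 * n)) := by rw [hk]; ring
      _ ≤ N := Nat.mul_div_le N (2 * n)
  · intro u hu c D hdeg hD
    have h1 : k ^ 2 ≤ m * (p - 1) * (r * D.space) :=
      lowDegree k c w p r m t n u (by rw [hn, hq]) hu D hdeg hD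
    have h2 : N < 2 * n * (k + 1) := by
      rw [hk]
      exact Nat.lt_mul_div_succ N hn0
    have h3 : (k + 1) ^ 2 ≤ 4 * (k ^ 2 + 1) := by nlinarith [sq_nonneg ((k : ℤ) - 1)]
    calc N ^ 2 ≤ (2 * n * (k + 1)) ^ 2 := Nat.pow_le_pow_left h2.le 2
      _ = 4 * n ^ 2 * (k + 1) ^ 2 := by ring
      _ ≤ 4 * n ^ 2 * (4 * (k ^ 2 + 1)) := Nat.mul_le_mul_left _ h3
      _ ≤ 4 * n ^ 2 * (4 * (m * (p - 1) * (r * D.space) + 1)) := by
          apply Nat.mul_le_mul_left
          omega
      _ = 6400000000 * q ^ 2 * (m * (p - 1) * (r * D.space) + 1) := by
          rw [hn]
          ring
      _ = _ := by rw [hq]

end Pool.Agent.Results.MP_f326ae_lc.LowDegreeTables
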