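import Pool.Agent.T2H60.HL.JointMain

set_option autoImplicit false

/-!
# Set intersection queries: one joint probe at an address which depends on both halves

**Model.** A family of `2 k` sets is given in two halves of `k` sets. The memory consists of a joint
memory of `s` cells of `w` bits, whose contents are *arbitrary* functions of the whole family, and of
unlimited further memory with arbitrary functions of the first half alone and of the second half
alone. A query names a set `i` of the first half and a set `j` of the second half. The query algorithm
first communicates: at most `b` bits, each of them an arbitrary function of `i`, `j`, of one of the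
two halves and of the bits sent before. For instance, `T` adaptive probes of cells with `w` bits
of the one-sided memory are such a protocol with `b = w T`. The result of this protocol is the
address of a joint cell. Its content is read, and afterwards at most `b` further bits are
communicated in the same way, depending on the content and on everything sent before, which
determines the answer: do the sets `i` and `j` intersect? The answer has to be correct for all
families; a listing algorithm with the same access pattern decides this as well.

**Result.** (1) If `k ≤ 2 ^ l`, `n ≥ 20000 (w + 1) (b (2 ^ w + 1) + 2 l + 1)` and `u ≥ 3 k n`, then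
every such structure for families of `2 k` sets with `n` elements in `{0, …, u - 1}` satisfies
`k ^ 2 ≤ w s`. This is sharp, as the `k ^ 2` answers can be stored in `s = k ^ 2 / w` cells.

(2) So for all `N`, `w` and `b` there are `k` and `n` with `2 k n ≤ N` such that
`N ^ 2 ≤ 6400000000 ((w + 1) (b (2 ^ w + 1) + 2 log N + 1)) ^ 2 (w s + 1)` for all structures for
families of `2 k` sets with `n` elements.

So for query time `T` the space is `N ^ 2 / (T ^ 2 polylog N)` for cells of `O(log log N)` bits, for
instance for joint bits, and `N ^ (2 - o(1)) / T ^ 2` for cells of `o(log N)` bits. In the starting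
result `AdaptiveJointProbe` of this problem the address may depend on the query, on the first half
and on random bits, but not on the second half (and cells of any length and errors are allowed).
Here the address may depend on both halves in an arbitrary way, as far as the query algorithm can
find it out.

**Proof.** Suppose that `w s < k ^ 2`. For every family `w + 1` of the `k ^ 2` queries read the same
joint cell. We consider random families in which no pair meets. By averaging there are fixed
`w + 1` queries, a fixed cell and a rectangle (a set of first halves times a set of second halves) of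
measure at least `2 ^ (-(w + 1) (b + 2 l))` on which all of these queries read this cell. For each
of the `2 ^ w` possible contents of the cell we fix the transcripts of the second protocols of the
`w + 1` queries; the measure decreases to `2 ^ (-(w + 1) (b (2 ^ w + 1) + 2 l))` at least. By the
hitting lemma of `LowDegreeTables` the rectangle contains for every subset `L` of the
`w + 1` queries a family in which exactly the pairs in `L` meet. Two of these `2 ^ (w + 1)` families
have the same content of the cell, so that all of the `w + 1` queries have the same answers for
both of them, which is a contradiction.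
-/

namespace Pool.Agent.Results.MP_f326ae_lc.OneJointProbeAnyAddress

open Pool.Agent.T2H60.HL.JD

theorem result :
    (∀ k s w b l n u : ℕ, k ≤ 2 ^ l →
      20000 * ((w + 1) * (b * (2 ^ w + 1) + 2 * l + 1)) ≤ n → 3 * k * n ≤ u →
      ∀ D : JointDS k s w, D.Bits b → D.Solves n u → k ^ 2 ≤ w * s) ∧
    (∀ N w b : ℕ, ∃ k n : ℕ, 2 * k * n ≤ N ∧
      ∀ u : ℕ, 3 * k * n ≤ u → ∀ (s : ℕ) (D : JointDS k s w), D.Bits b → D.Solves n u →
        N ^ 2 ≤ 6400000000 * ((w + 1) * (b * (2 ^ w + 1) + 2 * Nat.clog 2 N + 1)) ^ 2 *
          (w * s + 1)) := by
  refine ⟨fun k s w b l n u hk hn hu D hb hD => oneProbe k s w b l n u hk hn hu D hb hD, ?_⟩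
  intro N w b
  obtain ⟨q, hq⟩ : ∃ q, q = (w + 1) * (b * (2 ^ w + 1) + 2 * Nat.clog 2 N + 1) := ⟨_, rfl⟩
  obtain ⟨n, hn⟩ : ∃ n, n = 20000 * q := ⟨_, rfl⟩
  obtain ⟨k, hk⟩ : ∃ k, k = N / (2 * n) := ⟨_, rfl⟩
  have hq0 : 0 < q := by
    rw [hq]
    positivity
  have hn0 : 0 < 2 * n := by omega
  refine ⟨k, n, ?_, ?_⟩
  · calc 2 * k * n = 2 * n * (N / (2 * n)) := by rw [hk]; ring
      _ ≤ N := Nat.mul_div_le N (2 * n)
  · intro u hu s D hb hD
    have hkN : k ≤ 2 ^ Nat.clog 2 N := by
      calc k ≤ N := by rw [hk]; exact Nat.div_le_self _ _
        _ ≤ _ := Nat.le_pow_clog (by norm_num) N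
    have h1 : k ^ 2 ≤ w * s :=
      oneProbe k s w b (Nat.clog 2 N) n u hkN (by rw [hn, hq]) hu D hb hD
    have h2 : N < 2 * n * (k + 1) := by
      rw [hk]
      exact Nat.lt_mul_div_succ N hn0
    have h3 : (k + 1) ^ 2 ≤ 4 * (k ^ 2 + 1) := by nlinarith [sq_nonneg ((k : ℤ) - 1)]
    calc N ^ 2 ≤ (2 * n * (k + 1)) ^ 2 := Nat.pow_le_pow_left h2.le 2
      _ = 4 * n ^ 2 * (k + 1) ^ 2 := by ring
      _ ≤ 4 * n ^ 2 * (4 * (k ^ 2 + 1)) := Nat.mul_le_mul_left _ h3
      _ ≤ 4 * n ^ 2 * (4 * (w * s + 1)) := by
          apply Nat.mul_le_mul_left
          omega
      _ = 6400000000 * q ^ 2 * (w * s + 1) := by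
          rw [hn]
          ring
      _ = _ := by rw [hq]

end Pool.Agent.Results.MP_f326ae_lc.OneJointProbeAnyAddress
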